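import Mathlib
import Pool.Agent.Y670.CH.Ex
import Pool.Agent.Y670.CH.Zfc

/-!
# MP_7c0f46_gt: all uncountable subsets of a set of reals of size `𝔟 = 𝔡` can be bad

The first part says that for EVERY regular cardinal `κ > ℵ₁` a combinatorial principle about a
well-ordered set `K` of size `κ` is forced by a notion of forcing `P` (which exists outright) all
of whose antichains are countable. `P` adds `κ` Cohen reals and then is a finite support iteration
of Hechler forcing of length `κ`, presented through names for promises. See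
`Pool.Agent.W635.CHDefs` for the principle (`Principle` is the statement about actual objects,
`ForcedPrinciple` the same statement in the forcing language) and
`Pool.Agent.Helper669.Forcing` for the forcing language.

The second part is a theorem about actual objects: whenever the principle holds,
`𝔟 = 𝔡 = |K| > ℵ₁` and there is a set of reals `W` of cardinality `𝔟` (all of whose subsets are
Hurewicz) such that the productively Hurewicz (or productively Menger) subsets of `W` are exactly
the countable ones. So there are real spaces of every cardinality `ℵ₁ ≤ μ ≤ 𝔟` which are neither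
productively Hurewicz nor productively Menger.
-/

set_option autoImplicit false

namespace Pool.Agent.Results.MP_7c0f46_gt.HereditaryNegative

open Set Filter Cardinal Pool.Agent.H752R3 Pool.Agent.W635.CHDefs

/-- The bounding number `𝔟`. -/
noncomputable def bNumber : Cardinal.{0} :=
  sInf {κ | ∃ B : Set (ℕ → ℕ), (∀ g : ℕ → ℕ, ∃ f ∈ B, ¬ ∀ᶠ n in atTop, f n ≤ g n) ∧ #B = κ}

/-- The dominating number `𝔡`. -/
noncomputable def dNumber : Cardinal.{0} :=
  sInf {κ | ∃ D : Set (ℕ → ℕ), (∀ g : ℕ → ℕ, ∃ f ∈ D, ∀ᶠ n in atTop, g n ≤ f n) ∧ #D = κ}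

/-- Productively Hurewicz: the product with every Hurewicz space is Hurewicz. -/
def ProductivelyHurewicz (X : Type) [TopologicalSpace X] : Prop :=
  ∀ (Y : Type) [TopologicalSpace Y], HurewiczSp Y → HurewiczSp (X × Y)

/-- Productively Menger: the product with every Menger space is Menger. -/
def ProductivelyMenger (X : Type) [TopologicalSpace X] : Prop :=
  ∀ (Y : Type) [TopologicalSpace Y], MengerSp Y → MengerSp (X × Y)

/-- (1) For every regular cardinal `κ > ℵ₁` there are a notion of forcing `P` in which all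
antichains are countable, a well-ordered set `K` of cardinality `κ` and disjoint bounded subsets
`A`, `A'` of `K` such that all conditions force the principle for `K`, `A`, `A'`.
(2) If the principle holds, then `𝔟 = 𝔡 = |K| > ℵ₁`, and there is a set of reals `W` with
`|W| = 𝔟` all of whose subsets are Hurewicz, such that for every uncountable `X ⊆ W` there is a
first countable Tychonoff space `Y` (of size less than `𝔟` if `|X| < 𝔟`) which is Hurewicz and
Menger while `X × Y` is not Lindelöf, hence neither Hurewicz nor Menger, and a subset of `W` is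
productively Hurewicz, or productively Menger, if and only if it is countable. In particular there
are real spaces of each cardinality `ℵ₁ ≤ μ ≤ 𝔟` which are neither productively Hurewicz nor
productively Menger. -/
theorem result :
    (∀ κ : Cardinal.{0}, κ.IsRegular → ℵ_ 1 < κ →
      ∃ (P : Type) (_ : Preorder P) (K : Type) (_ : LinearOrder K) (_ : WellFoundedLT K)
      (A A' : Set K), Nonempty P ∧
        (∀ S : Set P, (∀ p ∈ S, ∀ q ∈ S, p ≠ q → ¬ ∃ r, r ≤ p ∧ r ≤ q) → S.Countable) ∧
        #K = κ ∧ Disjoint A A' ∧ (∃ γ : K, ∀ k ∈ A ∪ A', k < γ) ∧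
        ∀ p : P, p ∈ ForcedPrinciple P K A A') ∧
    (∀ (K : Type) [LinearOrder K] [WellFoundedLT K] (A A' : Set K) (w : K → ℕ → Bool)
      (f : K → ℕ → ℕ), Disjoint A A' → (∃ γ : K, ∀ k ∈ A ∪ A', k < γ) →
        Principle K A A' w f →
        bNumber = dNumber ∧ bNumber = #K ∧ ℵ_ 1 < bNumber ∧
        ∃ W : Set ℝ, #W = bNumber ∧
          (∀ X ⊆ W, HurewiczSp X) ∧
          (∀ X ⊆ W, ¬ X.Countable → ∃ (Y : Type) (_ : TopologicalSpace Y),
            T35Space Y ∧ FirstCountableTopology Y ∧ (#X < bNumber → #Y < bNumber) ∧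
            HurewiczSp Y ∧ MengerSp Y ∧
            ¬ LindelofSpace (X × Y) ∧ ¬ HurewiczSp (X × Y) ∧ ¬ MengerSp (X × Y)) ∧
          (∀ X ⊆ W, (ProductivelyHurewicz X ↔ X.Countable) ∧
            (ProductivelyMenger X ↔ X.Countable)) ∧
          ∀ μ : Cardinal.{0}, ℵ_ 1 ≤ μ → μ ≤ bNumber → ∃ X : Set ℝ, #X = μ ∧
            ¬ ProductivelyHurewicz X ∧ ¬ ProductivelyMenger X) := by
  refine ⟨Pool.Agent.Y670.CH.exists_forcing, ?_⟩
  intro K _ _ A A' w f _ hγ h
  obtain ⟨h1, h2⟩ := Pool.Agent.W635.CHZfc.numbers h
  have h1' : bNumber = #K := h1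
  have h2' : dNumber = #K := h2
  obtain ⟨W, Z, hW, hZ, hZW, hK, hH, hM⟩ := Pool.Agent.Y670.CH.exists_hereditary h hγ
  have hinf : ℵ₀ ≤ #K := (aleph0_le_aleph 1).trans hK.le
  have main : ∀ X ⊆ W, ¬ X.Countable → ∃ (Y : Type) (_ : TopologicalSpace Y),
      T35Space Y ∧ FirstCountableTopology Y ∧ (#X < bNumber → #Y < bNumber) ∧
      HurewiczSp Y ∧ MengerSp Y ∧
      ¬ LindelofSpace (X × Y) ∧ ¬ HurewiczSp (X × Y) ∧ ¬ MengerSp (X × Y) := by
    intro X hX hXc
    have hL : ¬ LindelofSpace (X × Mich Z X) := Pool.Agent.Y670.CH.not_lindelof_prod hXc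
    have hMe : ¬ MengerSp (X × Mich Z X) := by
      exact Pool.Agent.W635.CHZfc.not_menger_prod (hZW.mono_right hX) hXc
    refine ⟨Mich Z X, inferInstance, inferInstance,
      Pool.Agent.Y670.CH.firstCountable_mich Z X, fun hXb => ?_, hM X hX, (hM X hX).toMenger, hL,
      fun h => hMe h.toMenger, hMe⟩
    rw [h1'] at hXb ⊢
    have h3 : #(Mich Z X) = #(Z ∪ X : Set ℝ) := rfl
    rw [h3]
    exact (mk_union_le _ _).trans_lt (add_lt_of_lt hinf hZ hXb)
  have hiff : ∀ X ⊆ W, (ProductivelyHurewicz X ↔ X.Countable) ∧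
      (ProductivelyMenger X ↔ X.Countable) := by
    intro X hX
    constructor
    · constructor
      · intro hP
        by_contra hXc
        obtain ⟨Y, iY, _, _, _, h3, _, _, h4, _⟩ := main X hX hXc
        exact h4 (hP Y h3)
      · intro hXc Y _ hY
        have : Countable X := hXc.to_subtype
        exact Pool.Agent.Y670.CH.hurewicz_prod_of_countable hY
    · constructor
      · intro hP
        by_contra hXc
        obtain ⟨Y, iY, _, _, _, _, h3, _, _, h4⟩ := main X hX hXc
        exact h4 (hP Y h3)
      · intro hXc Y _ hY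
        have : Countable X := hXc.to_subtype
        exact Pool.Agent.Y670.CH.menger_prod_of_countable hY
  refine ⟨h1'.trans h2'.symm, h1', by rw [h1']; exact hK, W, by rw [h1']; exact hW, hH, main,
    hiff, fun μ hμ1 hμ2 => ?_⟩
  rw [h1', ← hW] at hμ2
  obtain ⟨X, hXW, hX⟩ := le_mk_iff_exists_subset.1 hμ2
  have hXc : ¬ X.Countable := by
    intro hc
    have h3 : μ ≤ ℵ₀ := by rw [← hX]; exact le_aleph0_iff_set_countable.2 hc
    have h4 : ℵ_ 1 ≤ ℵ₀ := hμ1.trans h3
    rw [← aleph_zero] at h4
    exact absurd (aleph_le_aleph.1 h4) (by norm_num)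
  exact ⟨X, hX, fun h => hXc ((hiff X hXW).1.1 h), fun h => hXc ((hiff X hXW).2.1 h)⟩

end Pool.Agent.Results.MP_7c0f46_gt.HereditaryNegative
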